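import Pool.Agent.Lib_c1afad_gs.Low

/-!
# Points which stay close, in density, to a jointly periodic point
-/

namespace CurveTrace

open Function

variable {A : Type*}

/-- Number of places in a window of length `2 r` met by few differences. -/
theorem agree_windows {n : ℕ} {x y : ℤ → A} (hx : x ∈ Per A n) (hy : y ∈ Per A n) (r : ℕ)
    (h : 4 * r * {i : ℕ | i < n ∧ x i ≠ y i}.ncard < n) :
    n < 2 * {i : ℕ | i < n ∧ ∀ a : ℕ, a < 2 * r → x (i + a) = y (i + a)}.ncard := by
  classical
  -- the differences, as a function of the place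
  let d : (ℤ → A) × (ℤ → A) → ℝ := fun p => if p.1 0 = p.2 0 then 0 else 1
  let D : ℤ → ℝ := fun i => if x i = y i then 0 else 1
  have hD0 : ∀ i, 0 ≤ D i := fun i => by
    simp only [D]
    split_ifs <;> norm_num
  have hDper : ∀ (c : ℕ), ∑ i ∈ Finset.range n, D (i + c) = ∑ i ∈ Finset.range n, D i := by
    intro c
    induction c with
    | zero => simp
    | succ c ih =>
      rw [← ih]
      have h1 := Finset.sum_range_succ (fun i : ℕ => D (i + c)) n
      have h2 := Finset.sum_range_succ' (fun i : ℕ => D (i + c)) n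
      have h3 : D (n + c) = D ((0 : ℕ) + c) := by
        simp only [D]
        rw [show ((n : ℤ) + c) = (c : ℤ) + n by ring, mem_Per.1 hx, mem_Per.1 hy]
        simp
      rw [h1] at h2
      have h4 : ∑ i ∈ Finset.range n, D (((i + 1 : ℕ) : ℤ) + c)
          = ∑ i ∈ Finset.range n, D (i + ((c + 1 : ℕ) : ℤ)) := by
        apply Finset.sum_congr rfl
        intro i _
        congr 1
        push_cast
        ring
      rw [h4] at h2
      rw [h3] at h2
      linarith
  have hcardD : ({i : ℕ | i < n ∧ x i ≠ y i}.ncard : ℝ) = ∑ i ∈ Finset.range n, D i := by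
    have : {i : ℕ | i < n ∧ x i ≠ y i}
        = (((Finset.range n).filter fun i : ℕ => x i ≠ y i : Finset ℕ) : Set ℕ) := by
      ext i
      simp
    rw [this, Set.ncard_coe_finset, ← Finset.sum_boole]
    apply Finset.sum_congr rfl
    intro i _
    simp only [D]
    by_cases hxy : x i = y i
    · simp [hxy]
    · simp [hxy]
  have hcardW : ({i : ℕ | i < n ∧ ∀ a : ℕ, a < 2 * r → x (i + a) = y (i + a)}.ncard : ℝ)
      = ∑ i ∈ Finset.range n,
        (if ∀ a : ℕ, a < 2 * r → x ((i : ℤ) + a) = y ((i : ℤ) + a) then (1 : ℝ) else 0) := by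
    have : {i : ℕ | i < n ∧ ∀ a : ℕ, a < 2 * r → x (i + a) = y (i + a)}
        = (((Finset.range n).filter fun i : ℕ =>
          ∀ a : ℕ, a < 2 * r → x (i + a) = y (i + a) : Finset ℕ) : Set ℕ) := by
      ext i
      simp
    rw [this, Set.ncard_coe_finset, ← Finset.sum_boole]
  have hkey : (n : ℝ) ≤ {i : ℕ | i < n ∧ ∀ a : ℕ, a < 2 * r → x (i + a) = y (i + a)}.ncard
      + 2 * r * {i : ℕ | i < n ∧ x i ≠ y i}.ncard := by
    rw [hcardW, hcardD]
    have hs : (2 * r : ℝ) * ∑ i ∈ Finset.range n, D i
        = ∑ i ∈ Finset.range n, ∑ c ∈ Finset.range (2 * r), D (i + c) := by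
      rw [Finset.sum_comm, Finset.sum_congr rfl fun c _ => hDper c]
      simp
    rw [hs, ← Finset.sum_add_distrib]
    calc (n : ℝ) = ∑ i ∈ Finset.range n, (1 : ℝ) := by simp
      _ ≤ _ := by
        apply Finset.sum_le_sum
        intro i _
        split_ifs with hw
        · have : 0 ≤ ∑ c ∈ Finset.range (2 * r), D (i + c) :=
            Finset.sum_nonneg fun c _ => hD0 _
          linarith
        · push Not at hw
          obtain ⟨c, hc, hcx⟩ := hw
          rw [zero_add]
          have h1 : D ((i : ℤ) + c) = 1 := by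
            simp only [D]
            rw [if_neg hcx]
          calc (1 : ℝ) = D ((i : ℤ) + c) := h1.symm
            _ ≤ _ := Finset.single_le_sum (f := fun c : ℕ => D ((i : ℤ) + c))
                (fun c _ => hD0 _) (Finset.mem_range.2 hc)
  have hkey' : n ≤ {i : ℕ | i < n ∧ ∀ a : ℕ, a < 2 * r → x (i + a) = y (i + a)}.ncard
      + 2 * r * {i : ℕ | i < n ∧ x i ≠ y i}.ncard := by
    exact_mod_cast hkey
  nlinarith

/-- A point which at all times differs from the orbit of a jointly periodic point at a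
proportion less than `1 / (4 r)` of the places is jointly periodic. -/
theorem close [Finite A] {F : (ℤ → A) → (ℤ → A)} {r : ℕ} (hc : Comm F)
    (hr : HasRadius F r) (hs : Surjective F) {n : ℕ} (hn : 0 < n) {x p : ℤ → A}
    (hx : x ∈ Per A n) (hp : p ∈ Per A n) (hpF : ∃ q : ℕ, 0 < q ∧ F^[q] p = p)
    (h : ∀ t : ℕ, 4 * r * {i : ℕ | i < n ∧ F^[t] x i ≠ F^[t] p i}.ncard < n) :
    ∃ q : ℕ, 0 < q ∧ F^[q] x = x := by
  classical
  obtain ⟨q, hq, hqp⟩ := hpF
  let W : ℕ → Set (ℤ → A) := fun s => {z | z ∈ Per A n ∧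
    ∀ t : ℕ, 4 * r * {i : ℕ | i < n ∧ F^[t] z i ≠ F^[t + s] p i}.ncard < n}
  have hWmap : ∀ s, ∀ z ∈ W s, F z ∈ W (s + 1) := by
    intro s z hz
    refine ⟨Per_map hc hz.1, fun t => ?_⟩
    have := hz.2 (t + 1)
    rw [iterate_succ_apply] at this
    rwa [show t + (s + 1) = t + 1 + s by ring]
  have hWinj : ∀ s, ∀ z ∈ W s, ∀ z' ∈ W s, F z = F z' → z = z' := by
    intro s z hz z' hz' hF
    have hps : F^[s] p ∈ Per A n := Per_iterate hc hp s
    have h1 := agree_windows hz.1 hps r (by have := hz.2 0; simpa using this)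
    have h2 := agree_windows hz'.1 hps r (by have := hz'.2 0; simpa using this)
    set S1 : Set ℕ := {i : ℕ | i < n ∧ ∀ a : ℕ, a < 2 * r → z (i + a) = F^[s] p (i + a)}
    set S2 : Set ℕ := {i : ℕ | i < n ∧ ∀ a : ℕ, a < 2 * r → z' (i + a) = F^[s] p (i + a)}
    obtain ⟨i, hi1, hi2⟩ : (S1 ∩ S2).Nonempty := by
      rw [Set.nonempty_iff_ne_empty]
      intro hcon
      have hdisj : Disjoint S1 S2 := Set.disjoint_iff_inter_eq_empty.2 hcon
      have hf1 : S1.Finite := (Set.finite_lt_nat n).subset fun i hi => hi.1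
      have hf2 : S2.Finite := (Set.finite_lt_nat n).subset fun i hi => hi.1
      have hun := Set.ncard_union_eq hdisj hf1 hf2
      have hle : (S1 ∪ S2).ncard ≤ n := by
        have hsub : S1 ∪ S2 ⊆ ((Finset.range n : Finset ℕ) : Set ℕ) := by
          intro i hi
          rw [Finset.mem_coe, Finset.mem_range]
          rcases hi with hi | hi
          · exact hi.1
          · exact hi.1
        have := Set.ncard_le_ncard hsub (Finset.finite_toSet _)
        rwa [Set.ncard_coe_finset, Finset.card_range] at this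
      omega
    apply ring_inj hc hr hs hn hz.1 hz'.1 hF i
    intro a ha
    rw [hi1.2 a ha, hi2.2 a ha]
  have hWper : ∀ s, W (s + q) = W s := by
    intro s
    ext z
    have : ∀ t, F^[t + (s + q)] p = F^[t + s] p := by
      intro t
      rw [← add_assoc, iterate_add_apply F (t + s) q, hqp]
    simp only [W, Set.mem_setOf_eq, this]
  have hit : ∀ m s, ∀ z ∈ W s, F^[m] z ∈ W (s + m) := by
    intro m
    induction m with
    | zero => intro s z hz; exact hz
    | succ m ih =>
      intro s z hz
      rw [iterate_succ_apply, show s + (m + 1) = s + 1 + m by ring]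
      exact ih (s + 1) (F z) (hWmap s z hz)
  have hitinj : ∀ m s, ∀ z ∈ W s, ∀ z' ∈ W s, F^[m] z = F^[m] z' → z = z' := by
    intro m
    induction m with
    | zero => intro s z _ z' _ h; exact h
    | succ m ih =>
      intro s z hz z' hz' h
      rw [iterate_succ_apply, iterate_succ_apply] at h
      exact hWinj s z hz z' hz' (ih (s + 1) _ (hWmap s z hz) _ (hWmap s z' hz') h)
  have hWfin : Finite (W 0) := (Per_finite (A := A) hn).subset fun z hz => hz.1
  let f : W 0 → W 0 := fun z => ⟨F^[q] z.1, by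
    have := hit q 0 z.1 z.2
    rwa [hWper] at this⟩
  have hfinj : Injective f := by
    intro z z' hzz
    exact Subtype.ext (hitinj q 0 z.1 z.2 z'.1 z'.2 (congrArg Subtype.val hzz))
  have hx0 : x ∈ W 0 := ⟨hx, fun t => h t⟩
  obtain ⟨m, hm, hmx⟩ := hfinj.mem_periodicPts ⟨x, hx0⟩
  refine ⟨q * m, Nat.mul_pos hq hm, ?_⟩
  have hfit : ∀ (s : ℕ) (z : W 0), (f^[s] z).1 = F^[q * s] z.1 := by
    intro s
    induction s with
    | zero => intro z; rfl
    | succ s ih =>
      intro z
      rw [iterate_succ_apply, ih, Nat.mul_succ, iterate_add_apply]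
  have := congrArg Subtype.val hmx
  rw [hfit] at this
  exact this

end CurveTrace
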