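import Pool.Agent.Lib_c1afad_gs.Close

/-!
# Final assembly
-/

namespace CurveTrace

open Function

variable {A : Type*}

/-- Density stability at a jointly periodic point gives density of jointly periodic points. -/
theorem dense_of_stable [Finite A] [TopologicalSpace A] [DiscreteTopology A]
    {F : (ℤ → A) → (ℤ → A)} {r : ℕ} (hc : Comm F) (hr : HasRadius F r) (hs : Surjective F)
    {p : ℤ → A} (hp : p ∈ JP F)
    (hst : ∀ ε : ℝ, 0 < ε → ∃ δ : ℝ, 0 < δ ∧ ∀ n : ℕ, 0 < n → ∀ x : ℤ → A, p ∈ Per A n →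
      x ∈ Per A n → ({i : ℕ | i < n ∧ x i ≠ p i}.ncard : ℝ) ≤ δ * n →
      ∀ t : ℕ, ({i : ℕ | i < n ∧ F^[t] x i ≠ F^[t] p i}.ncard : ℝ) ≤ ε * n) :
    Dense (JP F) := by
  obtain ⟨⟨m, hm, hpm⟩, hpF⟩ := id hp
  have hpm' : p ∈ Per A m := hpm
  apply dense_JP hc
  intro l hl u
  obtain ⟨δ, hδ, h⟩ := hst (1 / (4 * r + 1)) (by positivity)
  obtain ⟨N, hN⟩ := exists_nat_gt ((l : ℝ) / δ)
  rw [div_lt_iff₀ hδ] at hN
  set n := (N + l) * m with hn_def
  have hn : 0 < n := Nat.mul_pos (by omega) hm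
  have hln : l ≤ n := by
    calc l ≤ N + l := Nat.le_add_left _ _
      _ ≤ (N + l) * m := Nat.le_mul_of_pos_right _ hm
  have hNn : N ≤ n := by
    calc N ≤ N + l := Nat.le_add_right _ _
      _ ≤ (N + l) * m := Nat.le_mul_of_pos_right _ hm
  have hpn : p ∈ Per A n := Per_mul hpm' _
  let f : ℕ → A := fun c => if c < l then u c else p c
  have hx : pext n f ∈ Per A n := pext_per _ _
  have hcount : ({i : ℕ | i < n ∧ pext n f i ≠ p i}.ncard : ℝ) ≤ δ * n := by
    have h1 : {i : ℕ | i < n ∧ pext n f i ≠ p i}.ncard ≤ l := by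
      have hsub : {i : ℕ | i < n ∧ pext n f i ≠ p i} ⊆ ((Finset.range l : Finset ℕ) : Set ℕ) := by
        intro i hi
        rw [Finset.mem_coe, Finset.mem_range]
        by_contra hcon
        apply hi.2
        rw [pext_lt f hi.1]
        simp only [f]
        rw [if_neg hcon]
      have := Set.ncard_le_ncard hsub (Finset.finite_toSet _)
      rwa [Set.ncard_coe_finset, Finset.card_range] at this
    have h2 : ({i : ℕ | i < n ∧ pext n f i ≠ p i}.ncard : ℝ) ≤ l := by exact_mod_cast h1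
    have h3 : (N : ℝ) ≤ n := by exact_mod_cast hNn
    have h4 : (N : ℝ) * δ ≤ n * δ := mul_le_mul_of_nonneg_right h3 hδ.le
    linarith
  refine ⟨pext n f, ⟨⟨n, hn, hx⟩, close hc hr hs hn hx hpn hpF ?_⟩, ?_⟩
  · intro t
    have h5 := h n hn _ hpn hx hcount t
    have hn' : (0 : ℝ) < n := by exact_mod_cast hn
    have h6 : (4 * r : ℝ) * {i : ℕ | i < n ∧ F^[t] (pext n f) i ≠ F^[t] p i}.ncard < n := by
      calc (4 * r : ℝ) * {i : ℕ | i < n ∧ F^[t] (pext n f) i ≠ F^[t] p i}.ncard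
          ≤ (4 * r) * (1 / (4 * r + 1) * n) := by
            apply mul_le_mul_of_nonneg_left h5 (by positivity)
        _ = (4 * r) / (4 * r + 1) * n := by ring
        _ < 1 * n := by
            apply mul_lt_mul_of_pos_right _ hn'
            rw [div_lt_one (by positivity)]
            linarith
        _ = n := one_mul _
    exact_mod_cast h6
  · intro i hi0 hil
    obtain ⟨a, rfl⟩ := Int.eq_ofNat_of_zero_le hi0
    have ha : a < l := by exact_mod_cast hil
    rw [pext_lt f (by omega)]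
    simp only [f]
    rw [if_pos ha]

/-- The theorem on energies, for a function of the coordinates `0, …, w`. -/
theorem energy_main [Finite A] [Nonempty A] [TopologicalSpace A] [DiscreteTopology A]
    {F : (ℤ → A) → (ℤ → A)} {r : ℕ} (hcont : Continuous F) (hc : Comm F)
    (hr : HasRadius F r) (hs : Surjective F) {w : ℕ} {e : (ℤ → A) → ℝ} (he : Loc w e)
    (hG : ∀ e0 : ℝ, (∃ n : ℕ, 0 < n ∧ ∃ x ∈ Per A n, esum e n x = n * e0) →
      (∀ n : ℕ, 0 < n → ∀ x ∈ Per A n, n * e0 ≤ esum e n x) →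
      ((∀ n : ℕ, 0 < n → ∀ x ∈ Per A n, esum e n (F x) ≤ esum e n x) ∧
        Set.InjOn F (closure {g | Gr e e0 g})) ∨
      ((∀ n : ℕ, 0 < n → ∀ x ∈ Per A n, esum e n (F x) = esum e n x) ∧
        {g | Gr e e0 g}.Finite)) :
    ∃ e0 : ℝ, (∃ n : ℕ, 0 < n ∧ ∃ x ∈ Per A n, esum e n x = n * e0) ∧
      (∀ n : ℕ, 0 < n → ∀ x ∈ Per A n, n * e0 ≤ esum e n x) ∧
      (∃ ε : ℝ, 0 < ε ∧ ∀ n : ℕ, 0 < n → ∀ x ∈ Per A n, esum e n x ≤ n * (e0 + ε) →
        x ∈ JP F) ∧ Dense (JP F) := by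
  obtain ⟨e0, hatt, h0⟩ := exists_min_mean he
  have hnon : ∀ n : ℕ, 0 < n → ∀ x ∈ Per A n, esum e n (F x) ≤ esum e n x := by
    rcases hG e0 hatt h0 with h | h
    · exact h.1
    · intro n hn x hx
      exact (h.1 n hn x hx).le
  have hinj : Set.InjOn F (closure {g | Gr e e0 g}) := by
    rcases hG e0 hatt h0 with h | h
    · exact h.2
    · exact injOn_of_finite hc hr hs h.1 h.2
  obtain ⟨ε, hε, hlow⟩ := low_energy hcont hc hr hs he h0 hnon hinj
  refine ⟨e0, hatt, h0, ⟨ε, hε, hlow⟩, ?_⟩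
  obtain ⟨n0, hn0, g, hg, hgs⟩ := hatt
  apply dense_JP hc
  intro l hl u
  obtain ⟨n, hn, x, hx, hxe, hxu⟩ := exists_low he ⟨n0, hn0, hg, hgs⟩ hε l hl u
  exact ⟨x, hlow n hn x hx hxe, hxu⟩

end CurveTrace
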