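import Pool.Agent.Lib_c1afad.Transient
import Pool.Agent.Lib_c1afad.Radius

/-!
# Spatially periodic points which stay close, in density, to a set on which `F` is injective
-/

namespace CurveTrace

open Function

variable {A : Type*}

/-- The window of length `L` of `x` at `i` occurs, at the place `0`, in some point of `Y`. -/
def OccursAt (Y : Set (ℤ → A)) (L : ℕ) (x : ℤ → A) (i : ℤ) : Prop :=
  ∃ y ∈ Y, ∀ a : ℕ, a < L → y a = x (i + a)

theorem comm_apply_shz {F : (ℤ → A) → (ℤ → A)} (hc : Comm F) (m : ℤ) (x : ℤ → A) (i : ℤ) :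
    F (shz m x) i = F x (i + m) := by
  rw [hc.shz, shz_apply]

/-- On points of the same spatial period `F` is injective among points which agree somewhere
on a window of length `2 r`. -/
theorem ring_inj [Finite A] {F : (ℤ → A) → (ℤ → A)} {r : ℕ} (hc : Comm F)
    (hr : HasRadius F r) (hs : Surjective F) {n : ℕ} (hn : 0 < n) {x y : ℤ → A}
    (hx : x ∈ Per A n) (hy : y ∈ Per A n) (h : F x = F y) (c : ℤ)
    (hag : ∀ a : ℕ, a < 2 * r → x (c + a) = y (c + a)) : x = y := by
  apply Per_ext hn hx hy c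
  apply agree_between hc hr hs h c n hag
  intro a ha
  rw [show c + (n : ℤ) + a = (c + a) + n by ring, mem_Per.1 hx, mem_Per.1 hy]
  exact hag a ha

/-- If `F` is injective on a closed set `Y`, then the value of a point of `Y` at `0` is
determined by a window of its image. -/
theorem exists_window [Finite A] [TopologicalSpace A] [DiscreteTopology A]
    {F : (ℤ → A) → (ℤ → A)} (hcont : Continuous F) {Y : Set (ℤ → A)} (hY : IsClosed Y)
    (hinj : Set.InjOn F Y) :
    ∃ R : ℕ, ∀ y ∈ Y, ∀ y' ∈ Y, (∀ i : ℤ, |i| ≤ (R : ℤ) → F y i = F y' i) → y 0 = y' 0 := by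
  by_contra hcon
  push Not at hcon
  let C : ℕ → Set ((ℤ → A) × (ℤ → A)) := fun R =>
    {p | p.1 ∈ Y ∧ p.2 ∈ Y ∧ (∀ i : ℤ, |i| ≤ (R : ℤ) → F p.1 i = F p.2 i) ∧ p.1 0 ≠ p.2 0}
  have hcl : ∀ R, IsClosed (C R) := by
    intro R
    have h1 : IsClosed {p : (ℤ → A) × (ℤ → A) | p.1 ∈ Y} := hY.preimage continuous_fst
    have h2 : IsClosed {p : (ℤ → A) × (ℤ → A) | p.2 ∈ Y} := hY.preimage continuous_snd
    have h3 : IsClosed {p : (ℤ → A) × (ℤ → A) |
        ∀ i : ℤ, |i| ≤ (R : ℤ) → F p.1 i = F p.2 i} := by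
      have : {p : (ℤ → A) × (ℤ → A) | ∀ i : ℤ, |i| ≤ (R : ℤ) → F p.1 i = F p.2 i}
          = ⋂ i : ℤ, ⋂ _ : |i| ≤ (R : ℤ), {p | F p.1 i = F p.2 i} := by
        ext p
        simp
      rw [this]
      apply isClosed_iInter
      intro i
      apply isClosed_iInter
      intro _
      exact isClosed_eq ((continuous_apply i).comp (hcont.comp continuous_fst))
        ((continuous_apply i).comp (hcont.comp continuous_snd))
    have h4 : IsClosed {p : (ℤ → A) × (ℤ → A) | p.1 0 ≠ p.2 0} := by
      have hf : Continuous (fun p : (ℤ → A) × (ℤ → A) => (p.1 0, p.2 0)) :=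
        ((continuous_apply (0 : ℤ)).comp continuous_fst).prodMk
          ((continuous_apply (0 : ℤ)).comp continuous_snd)
      have : {p : (ℤ → A) × (ℤ → A) | p.1 0 ≠ p.2 0}
          = (fun p : (ℤ → A) × (ℤ → A) => (p.1 0, p.2 0)) ⁻¹' {q : A × A | q.1 ≠ q.2} := rfl
      rw [this]
      exact (isClosed_discrete _).preimage hf
    exact h1.inter (h2.inter (h3.inter h4))
  have hmono : ∀ R, C (R + 1) ⊆ C R := by
    intro R p hp
    refine ⟨hp.1, hp.2.1, fun i hi => hp.2.2.1 i ?_, hp.2.2.2⟩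
    push_cast
    linarith
  have hne : ∀ R, (C R).Nonempty := by
    intro R
    obtain ⟨y, hy, y', hy', h, h0⟩ := hcon R
    exact ⟨(y, y'), hy, hy', h, h0⟩
  obtain ⟨p, hp⟩ := IsCompact.nonempty_iInter_of_sequence_nonempty_isCompact_isClosed C
    hmono hne (hcl 0).isCompact hcl
  rw [Set.mem_iInter] at hp
  have h0 := hp 0
  apply h0.2.2.2
  have : p.1 = p.2 := by
    apply hinj h0.1 h0.2.1
    funext i
    exact (hp i.natAbs).2.2.1 i (by rw [Int.abs_eq_natAbs])
  rw [this]

/-- A point of spatial period `n` such that at all times more than half of its windows of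
length `L` occur in `Y` is periodic for `F`. -/
theorem stable [Finite A] [TopologicalSpace A] [DiscreteTopology A]
    {F : (ℤ → A) → (ℤ → A)} {r : ℕ} (hcont : Continuous F) (hc : Comm F)
    (hr : HasRadius F r) (hs : Surjective F) {Y : Set (ℤ → A)} (hY : IsClosed Y)
    (hYs : ∀ y ∈ Y, ∀ m : ℤ, shz m y ∈ Y) (hinj : Set.InjOn F Y) :
    ∃ L : ℕ, ∀ n : ℕ, 0 < n → ∀ x ∈ Per A n,
      (∀ t : ℕ, n < 2 * {i : ℕ | i < n ∧ OccursAt Y L (F^[t] x) i}.ncard) → x ∈ JP F := by
  classical
  obtain ⟨R, hR⟩ := exists_window hcont hY hinj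
  refine ⟨2 * R + 4 * r, ?_⟩
  intro n hn
  -- two points with the same image and a common place with good windows are equal
  have key : ∀ x ∈ Per A n, ∀ x' ∈ Per A n, F x = F x' → ∀ i : ℤ,
      OccursAt Y (2 * R + 4 * r) x i → OccursAt Y (2 * R + 4 * r) x' i → x = x' := by
    intro x hx x' hx' hF i ⟨y, hy, hyx⟩ ⟨y', hy', hyx'⟩
    have himg : ∀ z ∈ Y, ∀ u : ℤ → A, (∀ a : ℕ, a < 2 * R + 4 * r → z a = u (i + a)) →
        ∀ k : ℤ, (r : ℤ) ≤ k → k + r < 2 * R + 4 * r → F z k = F u (k + i) := by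
      intro z _ u hzu k hk1 hk2
      rw [← comm_apply_shz hc]
      apply hr
      intro j hj
      have hj' := abs_le.1 hj
      obtain ⟨a, ha⟩ := Int.eq_ofNat_of_zero_le (a := j) (by linarith)
      rw [ha, hzu a (by zify; rw [← ha]; linarith), shz_apply, add_comm]
    apply ring_inj hc hr hs hn hx hx' hF (i + R + r)
    intro b hb
    have hb' : (b : ℤ) < 2 * r := by exact_mod_cast hb
    have hw := hR (shz (R + r + b) y) (hYs y hy _) (shz (R + r + b) y') (hYs y' hy' _) (by
      intro j hj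
      have hj' := abs_le.1 hj
      rw [comm_apply_shz hc, comm_apply_shz hc,
        himg y hy x hyx _ (by linarith) (by linarith),
        himg y' hy' x' hyx' _ (by linarith) (by linarith), hF])
    rw [shz_apply, shz_apply, zero_add] at hw
    have e : ((R : ℤ) + r + b) = ((R + r + b : ℕ) : ℤ) := by push_cast; ring
    rw [e, hyx _ (by omega), hyx' _ (by omega)] at hw
    have e2 : i + (R : ℤ) + r + b = i + ((R + r + b : ℕ) : ℤ) := by push_cast; ring
    rw [e2]
    exact hw
  intro x hx hxt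
  let W : Set (ℤ → A) := {x | x ∈ Per A n ∧
    ∀ t : ℕ, n < 2 * {i : ℕ | i < n ∧ OccursAt Y (2 * R + 4 * r) (F^[t] x) i}.ncard}
  have hWfin : Finite W := (Per_finite (A := A) hn).subset fun z hz => hz.1
  have hmap : ∀ z ∈ W, F z ∈ W := by
    intro z hz
    refine ⟨Per_map hc hz.1, fun t => ?_⟩
    have := hz.2 (t + 1)
    rwa [iterate_succ_apply] at this
  let f : W → W := fun z => ⟨F z.1, hmap z.1 z.2⟩
  have hfinj : Injective f := by
    intro z z' hzz
    have hF : F z.1 = F z'.1 := congrArg Subtype.val hzz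
    apply Subtype.ext
    obtain ⟨i, hi1, hi2⟩ : ∃ i : ℕ, OccursAt Y (2 * R + 4 * r) z.1 i ∧
        OccursAt Y (2 * R + 4 * r) z'.1 i := by
      by_contra hcon
      push Not at hcon
      have h1 := z.2.2 0
      have h2 := z'.2.2 0
      simp only [iterate_zero, id] at h1 h2
      set S1 : Set ℕ := {i : ℕ | i < n ∧ OccursAt Y (2 * R + 4 * r) z.1 i}
      set S2 : Set ℕ := {i : ℕ | i < n ∧ OccursAt Y (2 * R + 4 * r) z'.1 i}
      have hdisj : Disjoint S1 S2 := by
        rw [Set.disjoint_left]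
        intro i hi1 hi2
        exact hcon i hi1.2 hi2.2
      have hf1 : S1.Finite := (Set.finite_lt_nat n).subset fun i hi => hi.1
      have hf2 : S2.Finite := (Set.finite_lt_nat n).subset fun i hi => hi.1
      have hun := Set.ncard_union_eq hdisj hf1 hf2
      have hle : (S1 ∪ S2).ncard ≤ n := by
        have hsub : S1 ∪ S2 ⊆ ((Finset.range n : Finset ℕ) : Set ℕ) := by
          intro i hi
          rw [Finset.mem_coe, Finset.mem_range]
          rcases hi with hi | hi
          · exact hi.1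
          · exact hi.1
        have := Set.ncard_le_ncard hsub (Finset.finite_toSet _)
        rwa [Set.ncard_coe_finset, Finset.card_range] at this
      omega
    exact key z.1 z.2.1 z'.1 z'.2.1 hF i hi1 hi2
  have hper := hfinj.mem_periodicPts ⟨x, hx, hxt⟩
  obtain ⟨q, hq, hqx⟩ := hper
  refine ⟨⟨n, hn, hx⟩, q, hq, ?_⟩
  have hit : ∀ (s : ℕ) (z : W), (f^[s] z).1 = F^[s] z.1 := by
    intro s
    induction s with
    | zero => intro z; rfl
    | succ s ih =>
      intro z
      rw [iterate_succ_apply, iterate_succ_apply, ih]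
  have := congrArg Subtype.val hqx
  rw [hit] at this
  exact this

end CurveTrace
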