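import Pool.Agent.Lib_c1afad_gs.Walks
import Pool.Agent.Lib_c1afad_gs.Stable

/-!
# Ground states of a local function
-/

namespace CurveTrace

open Function

variable {A : Type*}

theorem Loc.sub {w : ℕ} {φ ψ : (ℤ → A) → ℝ} (h1 : Loc w φ) (h2 : Loc w ψ) :
    Loc w (fun x => φ x - ψ x) := fun x y h => by
  show φ x - ψ x = φ y - ψ y
  rw [h1 x y h, h2 x y h]

theorem esum_sub (φ ψ : (ℤ → A) → ℝ) (n : ℕ) (x : ℤ → A) :
    esum (fun x => φ x - ψ x) n x = esum φ n x - esum ψ n x := by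
  simp [esum, Finset.sum_sub_distrib]

theorem esum_const (c : ℝ) (n : ℕ) (x : ℤ → A) : esum (fun _ => c) n x = n * c := by
  simp [esum]

theorem esum_smul (c : ℝ) (φ : (ℤ → A) → ℝ) (n : ℕ) (x : ℤ → A) :
    esum (fun x => c * φ x) n x = c * esum φ n x := by
  simp [esum, Finset.mul_sum]

/-- Nonnegativity of the sums of a local function need only be checked on short periods. -/
theorem nonneg_of_short [Finite A] {w : ℕ} {ψ : (ℤ → A) → ℝ} (hψ : Loc w ψ)
    (h : ∀ n : ℕ, 0 < n → n ≤ (Nat.card A) ^ w → ∀ x ∈ Per A n, 0 ≤ esum ψ n x) :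
    ∀ n : ℕ, 0 < n → ∀ x ∈ Per A n, 0 ≤ esum ψ n x := by
  intro n
  induction n using Nat.strong_induction_on with
  | _ n ih =>
    intro hn x hx
    rcases le_or_gt n ((Nat.card A) ^ w) with hs | hs
    · exact h n hn hs x hx
    · obtain ⟨i, j, hij, hj, hb⟩ := exists_repeat w x 1
      have hn1 : 0 < j - i := by omega
      have hn2 : 0 < n - (j - i) := by omega
      have hsum : j - i + (n - (j - i)) = n := by omega
      obtain ⟨y, hy, z, hz, hφ⟩ := cut (w := w) hn1 hn2 (x := shz i x)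
        (by rw [hsum]; exact Per_shz hx _) (by
          intro b hb'
          rw [shz_apply, shz_apply]
          have := hb b hb'
          simp only [Nat.cast_one, mul_one] at this
          rw [show ((j - i : ℕ) : ℤ) + b + i = j + b by omega, ← this]
          congr 1
          ring)
      have := hφ ψ hψ
      rw [hsum, esum_shz ψ hx] at this
      rw [this]
      have h1 := ih (j - i) (by omega) hn1 y hy
      have h2 := ih (n - (j - i)) (by omega) hn2 z hz
      linarith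

/-- Pairs of a short period and a point with this period. -/
def Short (A : Type*) (K : ℕ) : Set (ℕ × (ℤ → A)) := {p | 0 < p.1 ∧ p.1 ≤ K ∧ p.2 ∈ Per A p.1}

theorem short_finite [Finite A] (K : ℕ) : (Short A K).Finite := by
  have : Short A K ⊆ ⋃ n ∈ Finset.range (K + 1), (fun x => (n, x)) '' {x | 0 < n ∧ x ∈ Per A n} := by
    intro p hp
    simp only [Set.mem_iUnion, Finset.mem_range]
    exact ⟨p.1, by have := hp.2.1; omega, p.2, ⟨hp.1, hp.2.2⟩, rfl⟩
  refine Set.Finite.subset ?_ this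
  apply Set.Finite.biUnion (Finset.finite_toSet _)
  intro n _
  apply Set.Finite.image
  rcases Nat.eq_zero_or_pos n with h | h
  · subst h
    have : {x : ℤ → A | 0 < 0 ∧ x ∈ Per A 0} = ∅ := by
      ext x
      simp
    rw [this]
    exact Set.finite_empty
  · exact (Per_finite h).subset fun x hx => hx.2

/-- The minimal mean value exists and is attained. -/
theorem exists_min_mean [Finite A] [Nonempty A] {w : ℕ} {e : (ℤ → A) → ℝ} (he : Loc w e) :
    ∃ e0 : ℝ, (∃ n : ℕ, 0 < n ∧ ∃ x ∈ Per A n, esum e n x = n * e0) ∧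
      ∀ n : ℕ, 0 < n → ∀ x ∈ Per A n, n * e0 ≤ esum e n x := by
  obtain ⟨a⟩ := (inferInstance : Nonempty A)
  have hcard : 0 < Nat.card A := Nat.card_pos
  have hne : (Short A ((Nat.card A) ^ w)).Nonempty :=
    ⟨(1, fun _ => a), Nat.one_pos, Nat.one_le_pow _ _ hcard, by rw [mem_Per]; intro i; rfl⟩
  obtain ⟨p, hp, hmin⟩ := Set.exists_min_image (Short A ((Nat.card A) ^ w))
    (fun p => esum e p.1 p.2 / p.1) (short_finite _) hne
  have hp1 : (0 : ℝ) < p.1 := by exact_mod_cast hp.1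
  refine ⟨esum e p.1 p.2 / p.1, ⟨p.1, hp.1, p.2, hp.2.2, by field_simp⟩, ?_⟩
  intro n hn x hx
  have key := nonneg_of_short (w := w) (ψ := fun x => e x - esum e p.1 p.2 / p.1)
    (he.sub (fun _ _ _ => rfl)) (by
      intro n hn hnK x hx
      rw [esum_sub, esum_const]
      have := hmin (n, x) ⟨hn, hnK, hx⟩
      simp only at this
      have hn' : (0 : ℝ) < n := by exact_mod_cast hn
      rw [le_div_iff₀ hn'] at this
      linarith) n hn x hx
  rw [esum_sub, esum_const] at key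
  linarith

/-- Periodic points whose mean value is `e0`. -/
def Gr (e : (ℤ → A) → ℝ) (e0 : ℝ) (x : ℤ → A) : Prop :=
  ∃ n : ℕ, 0 < n ∧ x ∈ Per A n ∧ esum e n x = n * e0

theorem Gr.period {e : (ℤ → A) → ℝ} {e0 : ℝ} {x : ℤ → A} (h : Gr e e0 x) {m : ℕ}
    (hm : x ∈ Per A m) : esum e m x = m * e0 := by
  obtain ⟨n, hn, hx, hs⟩ := h
  have h1 := esum_mul e hx m
  have h2 := esum_mul e hm n
  rw [mul_comm n m, h1, hs] at h2
  have hn' : (n : ℝ) ≠ 0 := by exact_mod_cast hn.ne'
  have : (n : ℝ) * (m * e0) = n * esum e m x := by rw [← h2]; ring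
  exact (mul_left_cancel₀ hn' this).symm

theorem Gr.shift {e : (ℤ → A) → ℝ} {e0 : ℝ} {x : ℤ → A} (h : Gr e e0 x) (m : ℤ) :
    Gr e e0 (shz m x) := by
  obtain ⟨n, hn, hx, hs⟩ := h
  exact ⟨n, hn, Per_shz hx m, by rw [esum_shz e hx, hs]⟩

/-- The initial word of length `w + 1` of `x` occurs in a ground state. -/
def GWin (e : (ℤ → A) → ℝ) (e0 : ℝ) (w : ℕ) (x : ℤ → A) : Prop :=
  ∃ g, Gr e e0 g ∧ ∀ a : ℕ, a ≤ w → g a = x a

open Classical in
/-- The indicator of a bad window. -/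
noncomputable def bad (e : (ℤ → A) → ℝ) (e0 : ℝ) (w : ℕ) (x : ℤ → A) : ℝ :=
  if GWin e e0 w x then 0 else 1

theorem bad_nonneg (e : (ℤ → A) → ℝ) (e0 : ℝ) (w : ℕ) (x : ℤ → A) : 0 ≤ bad e e0 w x := by
  unfold bad
  split_ifs <;> norm_num

theorem bad_le (e : (ℤ → A) → ℝ) (e0 : ℝ) (w : ℕ) (x : ℤ → A) : bad e e0 w x ≤ 1 := by
  unfold bad
  split_ifs <;> norm_num

theorem bad_loc (e : (ℤ → A) → ℝ) (e0 : ℝ) (w : ℕ) : Loc w (bad (A := A) e e0 w) := by
  intro x y h
  have : GWin e e0 w x ↔ GWin e e0 w y := by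
    constructor
    · rintro ⟨g, hg, hgx⟩
      exact ⟨g, hg, fun a ha => by rw [hgx a ha, h a ha]⟩
    · rintro ⟨g, hg, hgx⟩
      exact ⟨g, hg, fun a ha => by rw [hgx a ha, h a ha]⟩
  unfold bad
  by_cases hx : GWin e e0 w x
  · rw [if_pos hx, if_pos (this.1 hx)]
  · rw [if_neg hx, if_neg (fun hy => hx (this.2 hy))]

theorem esum_bad_le (e : (ℤ → A) → ℝ) (e0 : ℝ) (w n : ℕ) (x : ℤ → A) :
    esum (bad e e0 w) n x ≤ n := by
  unfold esum
  calc ∑ i ∈ Finset.range n, bad e e0 w (shz (i : ℤ) x) ≤ ∑ i ∈ Finset.range n, (1 : ℝ) :=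
        Finset.sum_le_sum fun i _ => bad_le _ _ _ _
    _ = n := by simp

theorem esum_bad_gr {e : (ℤ → A) → ℝ} {e0 : ℝ} {w n : ℕ} {x : ℤ → A} (h : Gr e e0 x) :
    esum (bad e e0 w) n x = 0 := by
  unfold esum
  apply Finset.sum_eq_zero
  intro i _
  unfold bad
  rw [if_pos]
  exact ⟨shz i x, h.shift i, fun a _ => rfl⟩

/-- The excess energy controls the number of bad windows. -/
theorem exists_delta [Finite A] {w : ℕ} {e : (ℤ → A) → ℝ} (he : Loc w e) {e0 : ℝ}
    (h0 : ∀ n : ℕ, 0 < n → ∀ x ∈ Per A n, n * e0 ≤ esum e n x) :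
    ∃ δ : ℝ, 0 < δ ∧ ∀ n : ℕ, 0 < n → ∀ x ∈ Per A n,
      δ * esum (bad e e0 w) n x ≤ esum e n x - n * e0 := by
  classical
  set K := (Nat.card A) ^ w with hK
  -- a gap
  obtain ⟨η, hη, hgap⟩ : ∃ η : ℝ, 0 < η ∧ ∀ p ∈ Short A K, p.1 * e0 < esum e p.1 p.2 →
      η ≤ esum e p.1 p.2 - p.1 * e0 := by
    rcases Set.eq_empty_or_nonempty {p ∈ Short A K | p.1 * e0 < esum e p.1 p.2} with h | h
    · refine ⟨1, one_pos, fun p hp hlt => ?_⟩
      have : p ∈ {p ∈ Short A K | p.1 * e0 < esum e p.1 p.2} := ⟨hp, hlt⟩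
      rw [h] at this
      exact absurd this (Set.notMem_empty _)
    · obtain ⟨q, hq, hmin⟩ := Set.exists_min_image _ (fun p : ℕ × (ℤ → A) =>
        esum e p.1 p.2 - p.1 * e0) ((short_finite (A := A) K).subset fun p hp => hp.1) h
      exact ⟨esum e q.1 q.2 - q.1 * e0, by linarith [hq.2], fun p hp hlt => hmin p ⟨hp, hlt⟩⟩
  have hKp : (0 : ℝ) < K + 1 := by positivity
  refine ⟨η / (K + 1), by positivity, ?_⟩
  intro n hn x hx
  have key := nonneg_of_short (w := w)
    (ψ := fun x => (e x - e0) - (η / (K + 1)) * bad e e0 w x)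
    ((he.sub (fun _ _ _ => rfl)).sub (fun x y h => by
      show η / (K + 1) * bad e e0 w x = η / (K + 1) * bad e e0 w y
      rw [bad_loc e e0 w x y h])) (by
      intro n hn hnK x hx
      rw [esum_sub (fun x => e x - e0) (fun x => (η / (K + 1)) * bad e e0 w x), esum_sub,
        esum_const, esum_smul]
      rcases (h0 n hn x hx).lt_or_eq with hlt | heq
      · have h1 := hgap (n, x) ⟨hn, hnK, hx⟩ hlt
        simp only at h1
        have h2 : η / (K + 1) * esum (bad e e0 w) n x ≤ η / (K + 1) * (K + 1) := by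
          apply mul_le_mul_of_nonneg_left _ (by positivity)
          have h3 := esum_bad_le e e0 w n x
          have h4 : (n : ℝ) ≤ K := by exact_mod_cast hnK
          linarith
        rw [div_mul_cancel₀ _ hKp.ne'] at h2
        linarith
      · rw [esum_bad_gr ⟨n, hn, hx, heq.symm⟩, ← heq]
        simp) n hn x hx
  rw [esum_sub (fun x => e x - e0) (fun x => (η / (K + 1)) * bad e e0 w x), esum_sub,
    esum_const, esum_smul] at key
  linarith

/-- Words all of whose windows occur in ground states occur in ground states. -/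
theorem extend {w : ℕ} {e : (ℤ → A) → ℝ} (he : Loc w e) {e0 : ℝ} (x : ℤ → A) (l : ℕ)
    (h : ∀ c : ℕ, c < l + 1 → GWin e e0 w (shz c x)) :
    ∃ z, Gr e e0 z ∧ ∀ a : ℕ, a < l + 1 + w → z a = x a := by
  induction l with
  | zero =>
    obtain ⟨g, hg, hgx⟩ := h 0 (by omega)
    refine ⟨g, hg, fun a ha => ?_⟩
    rw [hgx a (by omega), shz_apply]
    simp
  | succ l ih =>
    obtain ⟨z, hz, hzx⟩ := ih fun c hc => h c (by omega)
    obtain ⟨g, hg, hgx⟩ := h (l + 1) (by omega)
    obtain ⟨n, hn, hzn, hzs⟩ := hz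
    obtain ⟨m, hm, hgm, hgs⟩ := hg
    have hn2 : 0 < (l + 1) * n := Nat.mul_pos (Nat.succ_pos _) hn
    have hzn2 : z ∈ Per A ((l + 1) * n) := Per_mul hzn _
    obtain ⟨s, hs, hs1, hs2, hφ⟩ := splice (w := w) hm hn2 hgm
      (Per_shz hzn2 ((l + 1 : ℕ) : ℤ)) (by
        intro b hb
        rw [hgx b (by omega), shz_apply, shz_apply]
        have := hzx (b + (l + 1)) (by omega)
        push_cast at this ⊢
        rw [this])
    have hsG : Gr e e0 s := by
      refine ⟨m + (l + 1) * n, by omega, hs, ?_⟩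
      rw [hφ e he, esum_shz e hzn2, hgs, esum_mul e hzn, hzs]
      push_cast
      ring
    refine ⟨shz (-((l + 1 : ℕ) : ℤ)) s, hsG.shift _, ?_⟩
    intro a ha
    rw [shz_apply]
    rcases lt_or_ge a (l + 1) with hal | hal
    · -- in the part of `z`
      have hle : l + 1 ≤ (l + 1) * n := Nat.le_mul_of_pos_right _ hn
      have h1 := hs2 ((l + 1) * n + a - (l + 1)) (by omega)
      rw [shz_apply] at h1
      have h2 := (mem_Per.1 hs) ((a : ℤ) + -((l + 1 : ℕ) : ℤ))
      rw [← h2]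
      have e1 : (a : ℤ) + -((l + 1 : ℕ) : ℤ) + ((m + (l + 1) * n : ℕ) : ℤ)
          = (m : ℤ) + (((l + 1) * n + a - (l + 1) : ℕ) : ℤ) := by
        rw [Nat.cast_sub (by omega)]
        push_cast
        ring
      rw [e1, h1]
      have e2 : ((((l + 1) * n + a - (l + 1) : ℕ) : ℤ) + ((l + 1 : ℕ) : ℤ))
          = (a : ℤ) + (((l + 1) * n : ℕ) : ℤ) := by
        rw [Nat.cast_sub (by omega)]
        push_cast
        ring
      rw [e2, mem_Per.1 hzn2]
      exact hzx a (by omega)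
    · obtain ⟨b, rfl⟩ := Nat.exists_eq_add_of_le hal
      have h1 := hs1 b (by omega)
      rw [show ((l + 1 + b : ℕ) : ℤ) + -((l + 1 : ℕ) : ℤ) = (b : ℤ) by push_cast; ring, h1,
        hgx b (by omega), shz_apply]
      congr 1
      push_cast
      ring

end CurveTrace
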