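import Pool.Agent.Lib_c1afad_gs.Ground

/-!
# Surjective cellular automata with a conserved energy
-/

namespace CurveTrace

open Function

variable {A : Type*}

theorem OccursAt.mono {Y Z : Set (ℤ → A)} (h : Y ⊆ Z) {L : ℕ} {x : ℤ → A} {i : ℤ}
    (hx : OccursAt Y L x i) : OccursAt Z L x i := by
  obtain ⟨y, hy, hyx⟩ := hx
  exact ⟨y, h hy, hyx⟩

/-- Positions whose long windows do not occur in ground states are few if the number of bad
windows is small. -/
theorem count_occurs {w : ℕ} {e : (ℤ → A) → ℝ} (he : Loc w e) {e0 : ℝ} (L n : ℕ) {x : ℤ → A}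
    (hx : x ∈ Per A n) :
    (n : ℝ) ≤ {i : ℕ | i < n ∧ OccursAt {g | Gr e e0 g} L x i}.ncard
      + (L + 1) * esum (bad e e0 w) n x := by
  classical
  have hcard : ({i : ℕ | i < n ∧ OccursAt {g | Gr e e0 g} L x i}.ncard : ℝ)
      = ∑ i ∈ Finset.range n, (if OccursAt {g | Gr e e0 g} L x (i : ℕ) then (1 : ℝ) else 0) := by
    have : {i : ℕ | i < n ∧ OccursAt {g | Gr e e0 g} L x i}
        = (((Finset.range n).filter fun i : ℕ => OccursAt {g | Gr e e0 g} L x i : Finset ℕ) :
          Set ℕ) := by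
      ext i
      simp
    rw [this, Set.ncard_coe_finset, ← Finset.sum_boole]
  have hsum : (L + 1 : ℝ) * esum (bad e e0 w) n x
      = ∑ i ∈ Finset.range n, ∑ c ∈ Finset.range (L + 1),
        bad e e0 w (shz (i : ℤ) (shz (c : ℤ) x)) := by
    rw [Finset.sum_comm]
    have : ∀ c ∈ Finset.range (L + 1), ∑ i ∈ Finset.range n,
        bad e e0 w (shz (i : ℤ) (shz (c : ℤ) x)) = esum (bad e e0 w) n x := by
      intro c _
      exact esum_shz (bad e e0 w) hx c
    rw [Finset.sum_congr rfl this]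
    simp
  rw [hcard, hsum, ← Finset.sum_add_distrib]
  calc (n : ℝ) = ∑ i ∈ Finset.range n, (1 : ℝ) := by simp
    _ ≤ _ := by
      apply Finset.sum_le_sum
      intro i _
      by_cases hocc : OccursAt {g | Gr e e0 g} L x (i : ℕ)
      · rw [if_pos hocc]
        have : 0 ≤ ∑ c ∈ Finset.range (L + 1), bad e e0 w (shz (i : ℤ) (shz (c : ℤ) x)) :=
          Finset.sum_nonneg fun c _ => bad_nonneg _ _ _ _
        linarith
      · rw [if_neg hocc, zero_add]
        -- some window is bad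
        obtain ⟨c, hc, hcb⟩ : ∃ c : ℕ, c < L + 1 ∧ ¬ GWin e e0 w (shz c (shz i x)) := by
          by_contra hcon
          push Not at hcon
          obtain ⟨z, hz, hzx⟩ := extend he (shz i x) L hcon
          apply hocc
          refine ⟨z, hz, fun a ha => ?_⟩
          rw [hzx a (by omega), shz_apply, add_comm]
        have h1 : bad e e0 w (shz (i : ℤ) (shz (c : ℤ) x)) = 1 := by
          unfold bad
          rw [if_neg]
          rw [shz_shz, add_comm, ← shz_shz]
          exact hcb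
        calc (1 : ℝ) = bad e e0 w (shz (i : ℤ) (shz (c : ℤ) x)) := h1.symm
          _ ≤ _ := Finset.single_le_sum (f := fun c : ℕ =>
              bad e e0 w (shz (i : ℤ) (shz (c : ℤ) x)))
              (fun c _ => bad_nonneg _ _ _ _) (Finset.mem_range.2 hc)

theorem continuous_shz [TopologicalSpace A] (m : ℤ) : Continuous (shz (A := A) m) :=
  continuous_pi fun i => continuous_apply (i + m)

/-- Periodic points of low energy are periodic for `F`. -/
theorem low_energy [Finite A] [TopologicalSpace A] [DiscreteTopology A]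
    {F : (ℤ → A) → (ℤ → A)} {r : ℕ} (hcont : Continuous F) (hc : Comm F)
    (hr : HasRadius F r) (hs : Surjective F) {w : ℕ} {e : (ℤ → A) → ℝ} (he : Loc w e)
    {e0 : ℝ} (h0 : ∀ n : ℕ, 0 < n → ∀ x ∈ Per A n, n * e0 ≤ esum e n x)
    (hnon : ∀ n : ℕ, 0 < n → ∀ x ∈ Per A n, esum e n (F x) ≤ esum e n x)
    (hinj : Set.InjOn F (closure {g | Gr e e0 g})) :
    ∃ ε : ℝ, 0 < ε ∧ ∀ n : ℕ, 0 < n → ∀ x ∈ Per A n, esum e n x ≤ n * (e0 + ε) →
      x ∈ JP F := by
  obtain ⟨L, hL⟩ := stable hcont hc hr hs (Y := closure {g | Gr e e0 g}) isClosed_closure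
    (fun y hy m => map_mem_closure (continuous_shz m) hy fun g hg => hg.shift m) hinj
  obtain ⟨δ, hδ, hbad⟩ := exists_delta he h0
  have hL1 : (0 : ℝ) < 4 * (L + 1) := by positivity
  refine ⟨δ / (4 * (L + 1)), by positivity, ?_⟩
  intro n hn x hx hxe
  apply hL n hn x hx
  intro t
  have hxt : F^[t] x ∈ Per A n := Per_iterate hc hx t
  have hE : esum e n (F^[t] x) ≤ esum e n x := by
    induction t with
    | zero => exact le_rfl
    | succ t ih =>
      rw [iterate_succ_apply']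
      have h1 := hnon n hn (F^[t] x) (Per_iterate hc hx t)
      exact h1.trans (ih (Per_iterate hc hx t))
  have h1 := hbad n hn _ hxt
  have h2 := count_occurs he (e0 := e0) L n hxt
  have hn' : (0 : ℝ) < n := by exact_mod_cast hn
  have h3 : esum (bad e e0 w) n (F^[t] x) ≤ n / (4 * (L + 1)) := by
    have : δ * esum (bad e e0 w) n (F^[t] x) ≤ δ * (n / (4 * (L + 1))) := by
      calc δ * esum (bad e e0 w) n (F^[t] x) ≤ esum e n (F^[t] x) - n * e0 := h1
        _ ≤ n * (e0 + δ / (4 * (L + 1))) - n * e0 := by linarith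
        _ = δ * (n / (4 * (L + 1))) := by ring
    exact le_of_mul_le_mul_left this hδ
  have h4 : (L + 1 : ℝ) * esum (bad e e0 w) n (F^[t] x) ≤ n / 4 := by
    calc (L + 1 : ℝ) * esum (bad e e0 w) n (F^[t] x) ≤ (L + 1) * (n / (4 * (L + 1))) := by
          apply mul_le_mul_of_nonneg_left h3 (by positivity)
      _ = n / 4 := by field_simp
  have hmono : {i : ℕ | i < n ∧ OccursAt {g | Gr e e0 g} L (F^[t] x) i}.ncard ≤
      {i : ℕ | i < n ∧ OccursAt (closure {g | Gr e e0 g}) L (F^[t] x) i}.ncard := by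
    apply Set.ncard_le_ncard
    · intro i hi
      exact ⟨hi.1, hi.2.mono subset_closure⟩
    · exact (Set.finite_lt_nat n).subset fun i hi => hi.1
  have hmono' : ({i : ℕ | i < n ∧ OccursAt {g | Gr e e0 g} L (F^[t] x) i}.ncard : ℝ) ≤
      {i : ℕ | i < n ∧ OccursAt (closure {g | Gr e e0 g}) L (F^[t] x) i}.ncard := by
    exact_mod_cast hmono
  have h5 : (n : ℝ) < 2 *
      {i : ℕ | i < n ∧ OccursAt (closure {g | Gr e e0 g}) L (F^[t] x) i}.ncard := by
    linarith
  exact_mod_cast h5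

/-- A local function is bounded. -/
theorem Loc.bounded [Finite A] {w : ℕ} {e : (ℤ → A) → ℝ} (he : Loc w e) :
    ∃ C : ℝ, ∀ x, |e x| ≤ C := by
  have hfin : ((fun x => |e x|) '' (Per A (w + 1))).Finite := (Per_finite (Nat.succ_pos w)).image _
  obtain ⟨C, hC⟩ := hfin.bddAbove
  refine ⟨C, fun x => ?_⟩
  have h1 : e x = e (pext (w + 1) fun c => x c) := by
    apply he
    intro a ha
    rw [pext_lt (fun c : ℕ => x c) (by omega)]
  rw [h1]
  exact hC ⟨_, pext_per _ _, rfl⟩

theorem esum_le_of_bound {e : (ℤ → A) → ℝ} {C : ℝ} (hC : ∀ x, |e x| ≤ C) (n : ℕ) (x : ℤ → A) :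
    |esum e n x| ≤ n * C := by
  unfold esum
  calc |∑ i ∈ Finset.range n, e (shz (i : ℤ) x)| ≤ ∑ i ∈ Finset.range n, |e (shz (i : ℤ) x)| :=
        Finset.abs_sum_le_sum_abs _ _
    _ ≤ ∑ i ∈ Finset.range n, C := Finset.sum_le_sum fun i _ => hC _
    _ = n * C := by simp

/-- Every word occurs in a periodic point of low energy. -/
theorem exists_low [Finite A] {w : ℕ} {e : (ℤ → A) → ℝ} (he : Loc w e)
    {e0 : ℝ} {g : ℤ → A} (hg : Gr e e0 g) {ε : ℝ} (hε : 0 < ε) (l : ℕ) (hl : 0 < l)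
    (u : ℤ → A) :
    ∃ n : ℕ, 0 < n ∧ ∃ x ∈ Per A n, esum e n x ≤ n * (e0 + ε) ∧
      ∀ i : ℤ, 0 ≤ i → i < l → x i = u i := by
  obtain ⟨C, hC⟩ := he.bounded
  obtain ⟨m, hm, hgm, hgs⟩ := hg
  obtain ⟨k, hk⟩ := exists_nat_gt ((((l + 2 * w : ℕ) : ℝ) * C - l * e0) / ε)
  rw [div_lt_iff₀ hε] at hk
  set N := (k + w) * m with hN
  have hNw : w ≤ N := by
    calc w ≤ k + w := Nat.le_add_left _ _
      _ ≤ (k + w) * m := Nat.le_mul_of_pos_right _ hm
  have hNk : k ≤ N := by
    calc k ≤ k + w := Nat.le_add_right _ _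
      _ ≤ (k + w) * m := Nat.le_mul_of_pos_right _ hm
  let f : ℕ → A := fun c => if c < l then u c else g ((c - l : ℕ) : ℤ)
  refine ⟨l + N, by omega, pext (l + N) f, pext_per _ _, ?_, ?_⟩
  · set x := pext (l + N) f with hx
    have hxg : ∀ a : ℕ, a < N → shz (l : ℤ) x a = g a := by
      intro a ha
      rw [shz_apply, hx]
      have : ((a : ℤ) + (l : ℤ)) = ((l + a : ℕ) : ℤ) := by push_cast; ring
      rw [this, pext_lt f (by omega)]
      simp only [f]
      rw [if_neg (by omega)]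
      congr 2
      omega
    have h1 : esum e (l + N) x = esum e l x + (esum e (N - w) (shz l x)
        + esum e w (shz ((N - w : ℕ) : ℤ) (shz l x))) := by
      rw [esum_add, ← esum_add e (N - w) w, Nat.sub_add_cancel hNw]
    have h2 : esum e (N - w) (shz l x) = esum e (N - w) g :=
      esum_congr he fun a ha => hxg a (by omega)
    have h3 : esum e N g = esum e (N - w) g + esum e w (shz ((N - w : ℕ) : ℤ) g) := by
      rw [← esum_add, Nat.sub_add_cancel hNw]
    have h4 : esum e N g = N * e0 := by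
      rw [hN, esum_mul e hgm, hgs]
      push_cast
      ring
    have b1 := (abs_le.1 (esum_le_of_bound hC l x)).2
    have b2 := (abs_le.1 (esum_le_of_bound hC w (shz ((N - w : ℕ) : ℤ) (shz l x)))).2
    have b3 := (abs_le.1 (esum_le_of_bound hC w (shz ((N - w : ℕ) : ℤ) g))).1
    have hkN : (k : ℝ) ≤ N := by exact_mod_cast hNk
    have hkε : (k : ℝ) * ε ≤ N * ε := mul_le_mul_of_nonneg_right hkN hε.le
    have hlε : (0 : ℝ) ≤ l * ε := by positivity
    rw [h1, h2]
    push_cast at hk ⊢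
    nlinarith
  · intro i hi0 hil
    obtain ⟨a, rfl⟩ := Int.eq_ofNat_of_zero_le hi0
    have ha : a < l := by exact_mod_cast hil
    rw [pext_lt f (by omega)]
    simp only [f]
    rw [if_pos ha]

/-- A spatially periodic point has a spatially periodic preimage. -/
theorem exists_periodic_preimage [Finite A] {F : (ℤ → A) → (ℤ → A)} {r : ℕ} (hc : Comm F)
    (hr : HasRadius F r) (hs : Surjective F) {n : ℕ} (hn : 0 < n) {y : ℤ → A}
    (hy : y ∈ Per A n) : ∃ k : ℕ, 0 < k ∧ ∃ x ∈ Per A (k * n), F x = y := by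
  obtain ⟨x0, hx0⟩ := hs y
  obtain ⟨i, j, hij, -, hb⟩ := exists_repeat (2 * r) x0 n
  have hk : 0 < j - i := by omega
  have hkn : 0 < (j - i) * n := Nat.mul_pos hk hn
  let f : ℕ → A := fun c => x0 ((i : ℤ) * n + c)
  have hf : ∀ b : ℕ, b < 2 * r → f ((j - i) * n + b) = f b := by
    intro b hb'
    simp only [f]
    rw [hb b hb']
    congr 1
    rw [Nat.cast_add, Nat.cast_mul, Nat.cast_sub hij.le]
    ring
  refine ⟨j - i, hk, pext ((j - i) * n) f, pext_per _ _, ?_⟩
  apply Per_ext hkn (Per_map hc (pext_per _ _)) (Per_mul hy _) r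
  intro a ha
  have h1 : F (pext ((j - i) * n) f) ((r : ℤ) + a) = F (shz ((i : ℤ) * n) x0) ((r : ℤ) + a) := by
    apply hr
    intro c hc'
    have h2 := abs_le.1 hc'
    obtain ⟨b, hb⟩ := Int.eq_ofNat_of_zero_le (a := c) (by linarith)
    rw [hb, pext_eq (w := 2 * r) f hkn hf (by zify; rw [← hb]; zify at ha; linarith), shz_apply,
      add_comm]
  rw [h1, comm_apply_shz hc, hx0]
  exact Per_add_mul hy _ _

/-- If the energy is conserved and there are only finitely many ground states then `F` is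
injective on them. -/
theorem injOn_of_finite [Finite A] [TopologicalSpace A] [DiscreteTopology A]
    {F : (ℤ → A) → (ℤ → A)} {r : ℕ} (hc : Comm F)
    (hr : HasRadius F r) (hs : Surjective F) {e : (ℤ → A) → ℝ} {e0 : ℝ}
    (hcons : ∀ n : ℕ, 0 < n → ∀ x ∈ Per A n, esum e n (F x) = esum e n x)
    (hfin : {g | Gr e e0 g}.Finite) :
    Set.InjOn F (closure {g | Gr e e0 g}) := by
  rw [hfin.isClosed.closure_eq]
  have hmap : ∀ g, Gr e e0 g → Gr e e0 (F g) := by
    rintro g ⟨n, hn, hg, hgs⟩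
    exact ⟨n, hn, Per_map hc hg, by rw [hcons n hn g hg, hgs]⟩
  have hpre : ∀ g, Gr e e0 g → ∃ g', Gr e e0 g' ∧ F g' = g := by
    intro g hg
    obtain ⟨n, hn, hgn, _⟩ := id hg
    obtain ⟨k, hk, x, hx, hFx⟩ := exists_periodic_preimage hc hr hs hn hgn
    refine ⟨x, ⟨k * n, Nat.mul_pos hk hn, hx, ?_⟩, hFx⟩
    rw [← hcons _ (Nat.mul_pos hk hn) x hx, hFx]
    exact hg.period (Per_mul hgn k)
  have hF : Finite {g | Gr e e0 g} := hfin
  let f : {g | Gr e e0 g} → {g | Gr e e0 g} := fun g => ⟨F g.1, hmap g.1 g.2⟩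
  have hsurj : Surjective f := by
    rintro ⟨g, hg⟩
    obtain ⟨g', hg', h⟩ := hpre g hg
    exact ⟨⟨g', hg'⟩, Subtype.ext h⟩
  have hinj : Injective f := Finite.injective_iff_surjective.2 hsurj
  intro g hg g' hg' h
  exact congrArg Subtype.val (hinj (a₁ := ⟨g, hg⟩) (a₂ := ⟨g', hg'⟩) (Subtype.ext h))

end CurveTrace
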