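import Pool.Agent.Lib_c1afad.Transient
import Pool.Agent.Lib_c1afad.Radius

/-!
# Sums of local functions along periodic points: cutting and splicing
-/

namespace CurveTrace

open Function

variable {A : Type*}

/-- `φ x` depends only on the coordinates `0, …, w` of `x`. -/
def Loc {M : Type*} (w : ℕ) (φ : (ℤ → A) → M) : Prop :=
  ∀ x y : ℤ → A, (∀ a : ℕ, a ≤ w → x a = y a) → φ x = φ y

/-- The sum of `e` over the first `n` shifts of `x`. -/
noncomputable def esum (e : (ℤ → A) → ℝ) (n : ℕ) (x : ℤ → A) : ℝ :=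
  ∑ i ∈ Finset.range n, e (shz (i : ℤ) x)

theorem esum_add (e : (ℤ → A) → ℝ) (n m : ℕ) (x : ℤ → A) :
    esum e (n + m) x = esum e n x + esum e m (shz n x) := by
  unfold esum
  rw [Finset.sum_range_add]
  congr 1
  apply Finset.sum_congr rfl
  intro i _
  rw [shz_shz]
  congr 2
  push_cast
  ring

theorem esum_congr {e : (ℤ → A) → ℝ} {w : ℕ} (he : Loc w e) {n : ℕ} {x y : ℤ → A}
    (h : ∀ a : ℕ, a < n + w → x a = y a) : esum e n x = esum e n y := by
  unfold esum
  apply Finset.sum_congr rfl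
  intro i hi
  rw [Finset.mem_range] at hi
  apply he
  intro a ha
  rw [shz_apply, shz_apply]
  have := h (a + i) (by omega)
  push_cast at this
  exact this

theorem shz_per {n : ℕ} {x : ℤ → A} (hx : x ∈ Per A n) : shz (n : ℤ) x = x := by
  funext i
  rw [shz_apply, mem_Per.1 hx]

theorem esum_one (e : (ℤ → A) → ℝ) (x : ℤ → A) : esum e 1 x = e x := by
  simp [esum, shz_zero]

theorem esum_shz_one (e : (ℤ → A) → ℝ) {n : ℕ} {x : ℤ → A} (hx : x ∈ Per A n) :
    esum e n (shz 1 x) = esum e n x := by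
  have h1 := esum_add e 1 n x
  have h2 := esum_add e n 1 x
  rw [shz_per hx, esum_one] at h2
  rw [esum_one, add_comm 1 n, h2] at h1
  have e1 : ((1 : ℕ) : ℤ) = 1 := rfl
  rw [e1] at h1
  linarith

theorem esum_shz (e : (ℤ → A) → ℝ) {n : ℕ} {x : ℤ → A} (hx : x ∈ Per A n) (m : ℤ) :
    esum e n (shz m x) = esum e n x := by
  induction m using Int.induction_on with
  | zero => rw [shz_zero]
  | succ k ih =>
    have := esum_shz_one e (Per_shz hx (k : ℤ))
    rw [shz_shz, ih, add_comm] at this
    exact this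
  | pred k ih =>
    have := esum_shz_one e (Per_shz hx (-(k : ℤ) - 1))
    rw [shz_shz, show (1 : ℤ) + (-(k : ℤ) - 1) = -k by ring, ih] at this
    exact this.symm

theorem esum_mul (e : (ℤ → A) → ℝ) {n : ℕ} {x : ℤ → A} (hx : x ∈ Per A n) (k : ℕ) :
    esum e (k * n) x = k * esum e n x := by
  induction k with
  | zero => simp [esum]
  | succ k ih =>
    rw [Nat.succ_mul, esum_add, ih, esum_shz e hx]
    push_cast
    ring

/-- The periodic configuration with period word `f 0, …, f (n - 1)`. -/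
def pext (n : ℕ) (f : ℕ → A) : ℤ → A := fun i => f (i % n).toNat

theorem pext_per (n : ℕ) (f : ℕ → A) : pext n f ∈ Per A n := by
  rw [mem_Per]
  intro i
  simp only [pext]
  rw [Int.add_emod_right]

theorem pext_lt {n : ℕ} (f : ℕ → A) {c : ℕ} (hc : c < n) : pext n f c = f c := by
  simp only [pext]
  rw [← Int.natCast_mod, Int.toNat_natCast, Nat.mod_eq_of_lt hc]

theorem pext_eq {n w : ℕ} (f : ℕ → A) (hn : 0 < n) (hf : ∀ b : ℕ, b < w → f (n + b) = f b)
    {c : ℕ} (hc : c < n + w) : pext n f c = f c := by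
  induction c using Nat.strong_induction_on with
  | _ c ih =>
    rcases lt_or_ge c n with h | h
    · exact pext_lt f h
    · obtain ⟨b, rfl⟩ := Nat.exists_eq_add_of_le h
      have hb : b < w := by omega
      rw [hf b hb, ← ih b (by omega) (by omega)]
      have := (mem_Per.1 (pext_per n f)) (b : ℤ)
      rw [← this]
      congr 1
      push_cast
      ring

/-- Cutting a periodic configuration at two equal words of length `w`. -/
theorem cut {w n₁ n₂ : ℕ} (h1 : 0 < n₁) (h2 : 0 < n₂) {x : ℤ → A} (hx : x ∈ Per A (n₁ + n₂))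
    (hw : ∀ b : ℕ, b < w → x (n₁ + b) = x b) :
    ∃ y ∈ Per A n₁, ∃ z ∈ Per A n₂, ∀ φ : (ℤ → A) → ℝ, Loc w φ →
      esum φ (n₁ + n₂) x = esum φ n₁ y + esum φ n₂ z := by
  refine ⟨pext n₁ (fun c => x c), pext_per _ _, pext n₂ (fun c => x (n₁ + c)), pext_per _ _, ?_⟩
  intro φ hφ
  rw [esum_add]
  congr 1
  · apply esum_congr hφ
    intro a ha
    rw [pext_eq (w := w) (fun c : ℕ => x c) h1 _ ha]
    intro b hb
    push_cast
    exact hw b hb
  · apply esum_congr hφ
    intro a ha
    rw [pext_eq (w := w) (fun c : ℕ => x (n₁ + c)) h2 _ ha, shz_apply, add_comm]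
    intro b hb
    have := (mem_Per.1 hx) (b : ℤ)
    rw [hw b hb, ← this]
    congr 1
    push_cast
    ring

/-- Splicing two periodic configurations which start with the same word of length `w`. -/
theorem splice {w n m : ℕ} (hn : 0 < n) (hm : 0 < m) {g h : ℤ → A} (hg : g ∈ Per A n)
    (hh : h ∈ Per A m) (hw : ∀ b : ℕ, b < w → g b = h b) :
    ∃ z ∈ Per A (n + m), (∀ c : ℕ, c < n + w → z c = g c) ∧
      (∀ c : ℕ, c < m + w → z (n + c) = h c) ∧ ∀ φ : (ℤ → A) → ℝ, Loc w φ →
      esum φ (n + m) z = esum φ n g + esum φ m h := by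
  let f : ℕ → A := fun c => if c < n then g c else h ((c - n : ℕ) : ℤ)
  have f1 : ∀ c : ℕ, c < n + w → f c = g c := by
    intro c hc
    simp only [f]
    split_ifs with hcn
    · rfl
    · rw [← hw _ (by omega)]
      have := (mem_Per.1 hg) ((c - n : ℕ) : ℤ)
      rw [← this]
      congr 1
      omega
  have f2 : ∀ c : ℕ, f (n + c) = h c := by
    intro c
    simp only [f]
    rw [if_neg (by omega)]
    congr 2
    omega
  have f3 : ∀ b : ℕ, b < w → f (n + m + b) = f b := by
    intro b hb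
    rw [f1 b (by omega), add_assoc, f2, hw b hb]
    have := (mem_Per.1 hh) (b : ℤ)
    rw [← this]
    congr 1
    push_cast
    ring
  have z1 : ∀ c : ℕ, c < n + m + w → pext (n + m) f c = f c := fun c hc =>
    pext_eq f (by omega) f3 hc
  have za : ∀ c : ℕ, c < n + w → pext (n + m) f c = g c := fun c hc => by
    rw [z1 c (by omega), f1 c hc]
  have zb : ∀ c : ℕ, c < m + w → pext (n + m) f (n + c) = h c := fun c hc => by
    have := z1 (n + c) (by omega)
    push_cast at this
    rw [this, f2]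
  refine ⟨pext (n + m) f, pext_per _ _, za, zb, ?_⟩
  intro φ hφ
  rw [esum_add]
  congr 1
  · exact esum_congr hφ za
  · apply esum_congr hφ
    intro a ha
    rw [shz_apply, add_comm (a : ℤ)]
    exact zb a ha

/-- A pigeonhole: in a long periodic configuration two words of length `w` coincide. -/
theorem exists_repeat [Finite A] (w : ℕ) (x : ℤ → A) (s : ℕ) :
    ∃ i j : ℕ, i < j ∧ j ≤ (Nat.card A) ^ w ∧
      ∀ b : ℕ, b < w → x (i * s + b) = x (j * s + b) := by
  classical
  have : Fintype A := Fintype.ofFinite A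
  obtain ⟨i, j, hij, h⟩ := Fintype.exists_ne_map_eq_of_card_lt
    (fun (i : Fin ((Nat.card A) ^ w + 1)) (b : Fin w) => x ((i : ℕ) * s + (b : ℕ)))
    (by simp [Nat.card_eq_fintype_card])
  wlog hlt : i < j generalizing i j with H
  · exact H j i hij.symm h.symm (lt_of_le_of_ne (not_lt.1 hlt) hij.symm)
  refine ⟨i, j, hlt, Nat.lt_succ_iff.1 j.2, fun b hb => ?_⟩
  have := congrFun h ⟨b, hb⟩
  exact this

end CurveTrace
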